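import Mathlib

/-!
# MP_6ac782_lc, Q1: a symmetric congruence modulo an ultrafilter is transitive

Let `w ≠ 0` be an ultrafilter on `ℤ`.  If `{d : dℤ ∈ w} ∈ w` (`w` is self-divisible), then
`u ≡_w v` says that `u` and `v` agree modulo every `d` with `dℤ ∈ w`, and `≡_w` is transitive.
Otherwise `≡_w` is not symmetric, as we show by an explicit pair.
-/

namespace Pool.Agent.Results.MP_6ac782_lc.SymmetricTransitive

open Filter

/-- `A` is divisibility-upward closed. -/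
def UpClosed (A : Set ℤ) : Prop := ∀ a ∈ A, ∀ b : ℤ, a ∣ b → b ∈ A

/-- `u ⊕ v`: `A ∈ u ⊕ v` iff `{x : {y : x + y ∈ A} ∈ v} ∈ u` (see `mem_oplus`). -/
def oplus (u v : Ultrafilter ℤ) : Ultrafilter ℤ := u.bind fun x => v.map fun y => x + y

/-- `-u = {-A : A ∈ u}`. -/
def neg (u : Ultrafilter ℤ) : Ultrafilter ℤ := u.map fun x => -x

/-- `u ⊖ v = u ⊕ (-v)`. -/
def ominus (u v : Ultrafilter ℤ) : Ultrafilter ℤ := oplus u (neg v)

/-- Divisibility of ultrafilters: `u ∩ 𝒰 ⊆ v`. -/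
def TDiv (u v : Ultrafilter ℤ) : Prop := ∀ A : Set ℤ, UpClosed A → A ∈ u → A ∈ v

/-- `u ≡_w v`. -/
def Cong (w u v : Ultrafilter ℤ) : Prop := TDiv w (ominus u v)

theorem mem_oplus {u v : Ultrafilter ℤ} {A : Set ℤ} :
    A ∈ oplus u v ↔ {x | {y | x + y ∈ A} ∈ v} ∈ u := Iff.rfl

theorem mem_neg {u : Ultrafilter ℤ} {A : Set ℤ} : A ∈ neg u ↔ {x | -x ∈ A} ∈ u := Iff.rfl

theorem mem_ominus {u v : Ultrafilter ℤ} {A : Set ℤ} :
    A ∈ ominus u v ↔ ∀ᶠ x in (u : Filter ℤ), ∀ᶠ y in (v : Filter ℤ), x + -y ∈ A := Iff.rfl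

/-- The multiples of `d`. -/
def Z (d : ℕ) : Set ℤ := {z | (d : ℤ) ∣ z}

theorem upClosed_Z (d : ℕ) : UpClosed (Z d) := fun _ ha _ hab => dvd_trans ha hab

/-- Self-divisible ultrafilters give transitive congruences. -/
theorem trans_of_self {w : Ultrafilter ℤ} (hw : {z : ℤ | Z z.natAbs ∈ w} ∈ w)
    {u v t : Ultrafilter ℤ} (h1 : Cong w u v) (h2 : Cong w v t) : Cong w u t := by
  intro A hA hAw
  obtain ⟨d, hdA, hd⟩ := Ultrafilter.nonempty_of_mem (Filter.inter_mem hAw hw)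
  have h3 := mem_ominus.1 (h1 _ (upClosed_Z d.natAbs) hd)
  have h4 := mem_ominus.1 (h2 _ (upClosed_Z d.natAbs) hd)
  rw [mem_ominus]
  filter_upwards [h3] with x hx
  obtain ⟨y, hy1, hy2⟩ := (hx.and h4).exists
  filter_upwards [hy2] with z hz
  refine hA d hdA _ ?_
  have h5 : (d.natAbs : ℤ) ∣ x + -z := by
    have := dvd_add hy1 hz
    have e : x + -z = x + -y + (y + -z) := by ring
    rw [e]; exact this
  exact Int.natAbs_dvd.1 h5

/-- The linear congruence `d c ≡ q^a` modulo `q^(a+1)` is solvable if `q^(a+1)` does not divide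
`d`. -/
theorem exists_cong {q a d : ℕ} (hq : q.Prime) (hd : ¬ q ^ (a + 1) ∣ d) :
    ∃ c : ℕ, d * c ≡ q ^ a [MOD q ^ (a + 1)] := by
  obtain ⟨b, hb, hgb⟩ := (Nat.dvd_prime_pow hq).1 (Nat.gcd_dvd_right d (q ^ (a + 1)))
  have hba : b ≤ a := by
    rcases Nat.lt_or_ge b (a + 1) with h | h
    · omega
    · exfalso
      have : b = a + 1 := by omega
      apply hd
      rw [← this, ← hgb]
      exact Nat.gcd_dvd_left _ _
  have hbez := Nat.gcd_eq_gcd_ab d (q ^ (a + 1))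
  have hq0 : (0 : ℤ) < ((q ^ (a + 1) : ℕ) : ℤ) := by
    have := pow_pos hq.pos (a + 1)
    exact_mod_cast this
  refine ⟨((Nat.gcdA d (q ^ (a + 1)) * q ^ (a - b)) % ((q ^ (a + 1) : ℕ) : ℤ)).toNat, ?_⟩
  rw [← Int.natCast_modEq_iff]
  rw [Nat.cast_mul, Int.toNat_of_nonneg (Int.emod_nonneg _ hq0.ne')]
  have h1 : (d : ℤ) * (Nat.gcdA d (q ^ (a + 1)) * q ^ (a - b) % ((q ^ (a + 1) : ℕ) : ℤ)) ≡
      (d : ℤ) * (Nat.gcdA d (q ^ (a + 1)) * q ^ (a - b)) [ZMOD ((q ^ (a + 1) : ℕ) : ℤ)] :=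
    Int.ModEq.mul_left _ (Int.mod_modEq _ _)
  refine h1.trans ?_
  have h2 : ((q ^ a : ℕ) : ℤ) = (d : ℤ) * (Nat.gcdA d (q ^ (a + 1)) * q ^ (a - b)) +
      ((q ^ (a + 1) : ℕ) : ℤ) * (Nat.gcdB d (q ^ (a + 1)) * q ^ (a - b)) := by
    have h3 : ((q ^ a : ℕ) : ℤ) = ((q ^ b : ℕ) : ℤ) * q ^ (a - b) := by
      push_cast
      rw [← pow_add, Nat.add_sub_cancel' hba]
    rw [h3, ← hgb, hbez]
    ring
  rw [h2]
  exact (Int.modEq_iff_dvd.2 ⟨Nat.gcdB d (q ^ (a + 1)) * q ^ (a - b), by ring⟩)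

/-- Simultaneous solution for finitely many primes. -/
theorem exists_crt (a : ℕ → ℕ) (F : Finset ℕ) (d : ℕ) (hF : ∀ q ∈ F, q.Prime)
    (hd : ∀ q ∈ F, ¬ q ^ (a q + 1) ∣ d) :
    ∃ c : ℕ, c < ∏ q ∈ F, q ^ (a q + 1) ∧ ∀ q ∈ F, d * c ≡ q ^ a q [MOD q ^ (a q + 1)] := by
  classical
  have h1 : ∀ q, ∃ c : ℕ, q ∈ F → d * c ≡ q ^ a q [MOD q ^ (a q + 1)] := by
    intro q
    by_cases hq : q ∈ F
    · obtain ⟨c, hc⟩ := exists_cong (hF q hq) (hd q hq)
      exact ⟨c, fun _ => hc⟩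
    · exact ⟨0, fun h => absurd h hq⟩
  choose c hc using h1
  have hne : ∀ q ∈ F, q ^ (a q + 1) ≠ 0 := fun q hq => (pow_pos (hF q hq).pos _).ne'
  have hpp : Set.Pairwise (F : Set ℕ) (Function.onFun Nat.Coprime fun q => q ^ (a q + 1)) := by
    intro p hp q hq hpq
    exact Nat.Coprime.pow _ _ ((Nat.coprime_primes (hF p hp) (hF q hq)).2 hpq)
  refine ⟨Nat.chineseRemainderOfFinset c (fun q => q ^ (a q + 1)) F hne hpp,
    Nat.chineseRemainderOfFinset_lt_prod c _ hne hpp, fun q hq => ?_⟩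
  have h2 := (Nat.chineseRemainderOfFinset c (fun q => q ^ (a q + 1)) F hne hpp).2 q hq
  exact (Nat.ModEq.mul_left d h2).trans (hc q hq)

section main

variable (w : Ultrafilter ℤ)

/-- The primes some power of which is not a divisor of `w`. -/
def T : Set ℕ := {q | q.Prime ∧ ∃ e, Z (q ^ e) ∉ w}

theorem exists_exponent {q : ℕ} (hq : q ∈ T w) : ∃ a, Z (q ^ a) ∈ w ∧ Z (q ^ (a + 1)) ∉ w := by
  classical
  have h := hq.2
  have h1 := Nat.find_spec h
  have h0 : Nat.find h ≠ 0 := by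
    intro h0
    rw [h0] at h1
    apply h1
    have : Z (q ^ 0) = Set.univ := by
      ext z; simp [Z]
    rw [this]
    exact Filter.univ_mem
  obtain ⟨a, ha⟩ := Nat.exists_eq_succ_of_ne_zero h0
  refine ⟨a, ?_, ?_⟩
  · by_contra h2
    have := Nat.find_min' h h2
    omega
  · rw [ha] at h1
    exact h1

/-- `dℤ ∉ w` is witnessed by a prime power. -/
theorem exists_prime_pow {a : ℕ → ℕ}
    (ha : ∀ q ∈ T w, Z (q ^ a q) ∈ w ∧ Z (q ^ (a q + 1)) ∉ w) {d : ℕ} (hd0 : d ≠ 0)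
    (hd : Z d ∉ w) : ∃ q ∈ T w, q ^ (a q + 1) ∣ d := by
  classical
  by_contra hcon
  push Not at hcon
  apply hd
  have h1 : ∀ p k : ℕ, p.Prime → p ^ k ∣ d → Z (p ^ k) ∈ w := by
    intro p k hp hpk
    by_cases hpT : p ∈ T w
    · have hk : k ≤ a p := by
        by_contra hk
        exact hcon p hpT ((pow_dvd_pow p (by omega)).trans hpk)
      refine Filter.mem_of_superset (ha p hpT).1 ?_
      intro z hz
      have h2 : ((p ^ a p : ℕ) : ℤ) ∣ z := hz
      -- the exponent k is at most a p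
      exact (Int.natCast_dvd_natCast.2 (pow_dvd_pow p hk)).trans h2
    · by_contra h2
      exact hpT ⟨hp, k, h2⟩
  have h3 : (⋂ m ∈ d.divisors.filter (fun m => Z m ∈ w), Z m) ∈ w := by
    have := (Filter.biInter_finset_mem (f := (w : Filter ℤ)) (s := fun m : ℕ => Z m)
      (d.divisors.filter (fun m => Z m ∈ w))).2 (fun m hm => (Finset.mem_filter.1 hm).2)
    exact this
  refine Filter.mem_of_superset h3 ?_
  intro z hz
  simp only [Set.mem_iInter, Finset.mem_filter, Nat.mem_divisors] at hz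
  change (d : ℤ) ∣ z
  rw [Int.natCast_dvd]
  rw [Nat.dvd_iff_prime_pow_dvd_dvd]
  intro p k hp hpk
  have := hz (p ^ k) ⟨⟨hpk, hd0⟩, h1 p k hp hpk⟩
  exact Int.natCast_dvd.1 this

end main

section construction

variable (T : Set ℕ) (a : ℕ → ℕ)

open Classical in
/-- The elements of `T` below `N`. -/
noncomputable def below (N : ℕ) : Finset ℕ := (Finset.range N).filter (· ∈ T)

/-- The product of the prime powers `q^(a q + 1)` over the `q ∈ T` below `N`. -/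
noncomputable def P (N : ℕ) : ℕ := ∏ q ∈ below T N, q ^ (a q + 1)

/-- A common multiple of everything below `N`. -/
noncomputable def M (N : ℕ) : ℕ := N.factorial * P T a N

/-- The next scale. -/
noncomputable def G (N : ℕ) : ℕ := (N + 1) * M T a N + N + 2

/-- The sequence of scales. -/
noncomputable def S : ℕ → ℕ
  | 0 => 0
  | k + 1 => G T a (S k)

theorem mem_below {N q : ℕ} : q ∈ below T N ↔ q < N ∧ q ∈ T := by
  classical
  simp [below]

theorem S_lt (k : ℕ) : S T a k < S T a (k + 1) := by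
  change S T a k < G T a (S T a k)
  rw [G]
  omega

theorem S_strictMono : StrictMono (S T a) := strictMono_nat_of_lt_succ (S_lt T a)

theorem le_S (k : ℕ) : k ≤ S T a k := (S_strictMono T a).le_apply

variable {T}

theorem P_pos (hT : ∀ q ∈ T, q.Prime) (N : ℕ) : 0 < P T a N :=
  Finset.prod_pos fun q hq => pow_pos (hT q ((mem_below T).1 hq).2).pos _

theorem M_pos (hT : ∀ q ∈ T, q.Prime) (N : ℕ) : 0 < M T a N :=
  Nat.mul_pos (Nat.factorial_pos _) (P_pos a hT N)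

theorem M_lt (k : ℕ) : M T a (S T a k) + 1 < S T a (k + 1) := by
  change M T a (S T a k) + 1 < G T a (S T a k)
  rw [G]
  have : M T a (S T a k) ≤ (S T a k + 1) * M T a (S T a k) :=
    Nat.le_mul_of_pos_left _ (Nat.succ_pos _)
  omega

theorem key (hT : ∀ q ∈ T, q.Prime) (δ j d c : ℕ) (hjd : j ≤ d) (F : Finset ℕ)
    (hd : 0 < d)
    (hF : ∀ q, q ∈ F ↔ q ∈ below T (S T a (2 * d + δ)) ∧ ¬ q ^ (a q + 1) ∣ d)
    (hc : c < ∏ q ∈ F, q ^ (a q + 1))
    (hc' : ∀ q ∈ F, d * c ≡ q ^ a q [MOD q ^ (a q + 1)])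
    (hsmall : ∀ q ∈ T, q < S T a (2 * j + δ) → ¬ q ^ (a q + 1) ∣ d)
    (q : ℕ) (hq : q ∈ T) (hQ : ∀ i, q < S T a (2 * i + δ) ∨ S T a (2 * i + δ + 1) ≤ q) :
    ¬ q ^ (a q + 1) ∣ M T a (S T a (2 * j + δ)) + d * c := by
  have hqp := hT q hq
  have hqle : q ≤ q ^ (a q + 1) := Nat.le_self_pow (Nat.succ_ne_zero _) q
  have hmono := (S_strictMono T a).monotone
  have hmpos := M_pos a hT (S T a (2 * j + δ))
  -- size of the number
  have hcP : ∏ q ∈ F, q ^ (a q + 1) ≤ P T a (S T a (2 * d + δ)) := by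
    apply Finset.prod_le_prod_of_subset_of_one_le'
    · intro p hp
      exact ((hF p).1 hp).1
    · intro p hp _
      exact Nat.one_le_pow _ _ (hT p ((mem_below T).1 hp).2).pos
  have hPM : P T a (S T a (2 * d + δ)) ≤ M T a (S T a (2 * d + δ)) :=
    Nat.le_mul_of_pos_left _ (Nat.factorial_pos _)
  have hdS : d ≤ S T a (2 * d + δ) := (by omega : d ≤ 2 * d + δ).trans (le_S T a _)
  have hdc : d * c ≤ S T a (2 * d + δ) * M T a (S T a (2 * d + δ)) :=
    Nat.mul_le_mul hdS (hc.le.trans (hcP.trans hPM))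
  have hM : M T a (S T a (2 * j + δ)) ≤ M T a (S T a (2 * d + δ)) + S T a (2 * d + δ) := by
    rcases Nat.lt_or_ge (2 * j + δ) (2 * d + δ) with h | h
    · have h1 := M_lt (T := T) a (2 * j + δ)
      have h2 : S T a (2 * j + δ + 1) ≤ S T a (2 * d + δ) := hmono (by omega)
      omega
    · have : 2 * j + δ = 2 * d + δ := by omega
      rw [this]
      omega
  have hbound : M T a (S T a (2 * j + δ)) + d * c < S T a (2 * d + δ + 1) := by
    change _ < G T a (S T a (2 * d + δ))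
    rw [G]
    have : (S T a (2 * d + δ) + 1) * M T a (S T a (2 * d + δ)) =
      S T a (2 * d + δ) * M T a (S T a (2 * d + δ)) + M T a (S T a (2 * d + δ)) := by ring
    omega
  intro hdvd
  rcases hQ d with hqd | hqd
  swap
  · have := Nat.le_of_dvd (by omega) hdvd
    omega
  by_cases hbad : q ^ (a q + 1) ∣ d
  · -- the bad primes
    have h1 : q ^ (a q + 1) ∣ M T a (S T a (2 * j + δ)) :=
      (Nat.dvd_add_left (hbad.mul_right c)).1 hdvd
    rcases hQ j with hqj | hqj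
    · exact hsmall q hq hqj hbad
    · have h2 := Nat.le_of_dvd hmpos h1
      have h3 := M_lt (T := T) a (2 * j + δ)
      omega
  · have hqF : q ∈ F := (hF q).2 ⟨(mem_below T).2 ⟨hqd, hq⟩, hbad⟩
    have h1 : M T a (S T a (2 * j + δ)) + d * c ≡ M T a (S T a (2 * j + δ)) + q ^ a q
        [MOD q ^ (a q + 1)] := Nat.ModEq.add_left _ (hc' q hqF)
    have h2 : q ^ (a q + 1) ∣ M T a (S T a (2 * j + δ)) + q ^ a q :=
      (h1.dvd_iff dvd_rfl).1 hdvd
    have h3 : 0 < q ^ a q := pow_pos hqp.pos _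
    have h4 : q ^ (a q + 1) = q ^ a q * q := pow_succ _ _
    have h5 := hqp.two_le
    rcases hQ j with hqj | hqj
    · have h6 : q ^ (a q + 1) ∣ M T a (S T a (2 * j + δ)) := by
        have h7 : q ^ (a q + 1) ∣ P T a (S T a (2 * j + δ)) :=
          Finset.dvd_prod_of_mem (fun q => q ^ (a q + 1)) ((mem_below T).2 ⟨hqj, hq⟩)
        exact h7.mul_left _
      have h8 : q ^ (a q + 1) ∣ q ^ a q := (Nat.dvd_add_right h6).1 h2
      have h9 := Nat.le_of_dvd h3 h8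
      nlinarith
    · have h6 := M_lt (T := T) a (2 * j + δ)
      have h7 := Nat.le_of_dvd (by omega) h2
      obtain ⟨m, hm⟩ : ∃ m, m = M T a (S T a (2 * j + δ)) := ⟨_, rfl⟩
      rw [← hm] at h6 h7
      have h8 : m + 1 < q := by omega
      have h9 : m < q ^ a q * (q - 1) := by
        calc m < q - 1 := by omega
          _ = 1 * (q - 1) := (one_mul _).symm
          _ ≤ q ^ a q * (q - 1) := Nat.mul_le_mul_right _ h3
      have h10 : q ^ a q * (q - 1) + q ^ a q = q ^ a q * q := by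
        rw [← Nat.mul_succ]
        have h11 : (q - 1).succ = q := by omega
        rw [h11]
      omega

end construction

/-- If `w` is not self-divisible, then `≡_w` is not symmetric. -/
theorem not_symm {w : Ultrafilter ℤ} (hw0 : w ≠ pure 0)
    (hw : {z : ℤ | Z z.natAbs ∈ w} ∉ w) :
    ∃ u v : Ultrafilter ℤ, Cong w u v ∧ ¬ Cong w v u := by
  classical
  have hwc : {z : ℤ | Z z.natAbs ∉ w} ∈ w := by
    have := (Ultrafilter.compl_mem_iff_notMem (f := w)).2 hw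
    exact this
  have h0 : {z : ℤ | z ≠ 0} ∈ w := by
    by_contra h
    have h1 := (Ultrafilter.compl_mem_iff_notMem (f := w)).2 h
    have h2 : ({0} : Set ℤ) ∈ w := by
      refine Filter.mem_of_superset h1 ?_
      intro z hz
      by_contra hz'
      exact hz hz'
    obtain ⟨x, hx, hx'⟩ := Ultrafilter.eq_pure_of_finite_mem (Set.finite_singleton 0) h2
    rw [Set.mem_singleton_iff] at hx
    rw [hx] at hx'
    exact hw0 hx'
  have hbig : ∀ j : ℕ, {z : ℤ | j ≤ z.natAbs} ∈ w := by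
    intro j
    by_contra h
    have h1 := (Ultrafilter.compl_mem_iff_notMem (f := w)).2 h
    have hfin : ({z : ℤ | j ≤ z.natAbs}ᶜ).Finite := by
      refine (Set.finite_Icc (-(j : ℤ)) j).subset ?_
      intro z hz
      have : ¬ j ≤ z.natAbs := hz
      rw [Set.mem_Icc]
      omega
    obtain ⟨x, -, hx'⟩ := Ultrafilter.eq_pure_of_finite_mem hfin h1
    rw [hx'] at hwc
    have h2 : Z x.natAbs ∉ (pure x : Ultrafilter ℤ) := Ultrafilter.mem_pure.1 hwc
    exact h2 (Ultrafilter.mem_pure.2 (Int.natAbs_dvd.2 dvd_rfl))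
  -- exponents
  have hex : ∀ q, ∃ b : ℕ, q ∈ T w → Z (q ^ b) ∈ w ∧ Z (q ^ (b + 1)) ∉ w := by
    intro q
    by_cases hq : q ∈ T w
    · obtain ⟨b, hb⟩ := exists_exponent w hq
      exact ⟨b, fun _ => hb⟩
    · exact ⟨0, fun h => absurd h hq⟩
  choose a ha using hex
  have hT : ∀ q ∈ T w, q.Prime := fun q hq => hq.1
  obtain ⟨N, hN⟩ : ∃ N, N = S (T w) a := ⟨_, rfl⟩
  -- the gap property
  have hcover : ∃ δ : ℕ, {z : ℤ | ∃ q ∈ T w, (∀ i, q < N (2 * i + δ) ∨ N (2 * i + δ + 1) ≤ q) ∧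
      ((q ^ (a q + 1) : ℕ) : ℤ) ∣ z} ∈ w := by
    have hall : {z : ℤ | ∃ q ∈ T w, ((q ^ (a q + 1) : ℕ) : ℤ) ∣ z} ∈ w := by
      refine Filter.mem_of_superset (Filter.inter_mem h0 hwc) ?_
      rintro z ⟨hz0, hz⟩
      obtain ⟨q, hq, hqz⟩ := exists_prime_pow w ha (Int.natAbs_ne_zero.2 hz0) hz
      exact ⟨q, hq, Int.natCast_dvd.2 hqz⟩
    have hsplit : {z : ℤ | ∃ q ∈ T w, ((q ^ (a q + 1) : ℕ) : ℤ) ∣ z} ⊆
        {z : ℤ | ∃ q ∈ T w, (∀ i, q < N (2 * i + 0) ∨ N (2 * i + 0 + 1) ≤ q) ∧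
          ((q ^ (a q + 1) : ℕ) : ℤ) ∣ z} ∪
        {z : ℤ | ∃ q ∈ T w, (∀ i, q < N (2 * i + 1) ∨ N (2 * i + 1 + 1) ≤ q) ∧
          ((q ^ (a q + 1) : ℕ) : ℤ) ∣ z} := by
      rintro z ⟨q, hq, hqz⟩
      by_cases h1 : ∀ i, q < N (2 * i + 0) ∨ N (2 * i + 0 + 1) ≤ q
      · exact Or.inl ⟨q, hq, h1, hqz⟩
      · by_cases h2 : ∀ i, q < N (2 * i + 1) ∨ N (2 * i + 1 + 1) ≤ q
        · exact Or.inr ⟨q, hq, h2, hqz⟩
        · exfalso
          push Not at h1 h2
          obtain ⟨i, hi1, hi2⟩ := h1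
          obtain ⟨k, hk1, hk2⟩ := h2
          have hmono : Monotone N := by rw [hN]; exact (S_strictMono _ _).monotone
          rcases Nat.lt_or_ge k i with h | h
          · have := hmono (by omega : 2 * k + 1 + 1 ≤ 2 * i + 0)
            omega
          · have := hmono (by omega : 2 * i + 0 + 1 ≤ 2 * k + 1)
            omega
    rcases (Ultrafilter.union_mem_iff (f := w)).1 (Filter.mem_of_superset hall hsplit) with h | h
    · exact ⟨0, h⟩
    · exact ⟨1, h⟩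
  obtain ⟨δ, hδ⟩ := hcover
  obtain ⟨A, hA⟩ : ∃ A : Set ℤ, A = {z : ℤ | ∃ q ∈ T w,
      (∀ i, q < N (2 * i + δ) ∨ N (2 * i + δ + 1) ≤ q) ∧ ((q ^ (a q + 1) : ℕ) : ℤ) ∣ z} :=
    ⟨_, rfl⟩
  rw [← hA] at hδ
  have hAup : UpClosed A := by
    rw [hA]
    rintro z ⟨q, hq, h1, h2⟩ b hb
    exact ⟨q, hq, h1, h2.trans hb⟩
  -- the multiples
  have hn : ∀ d : ℕ, ∃ (c : ℕ) (F : Finset ℕ),
      (∀ q, q ∈ F ↔ q ∈ below (T w) (N (2 * d + δ)) ∧ ¬ q ^ (a q + 1) ∣ d) ∧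
      c < ∏ q ∈ F, q ^ (a q + 1) ∧ ∀ q ∈ F, d * c ≡ q ^ a q [MOD q ^ (a q + 1)] := by
    intro d
    obtain ⟨F, hF⟩ : ∃ F : Finset ℕ,
        F = (below (T w) (N (2 * d + δ))).filter fun q => ¬ q ^ (a q + 1) ∣ d := ⟨_, rfl⟩
    have hF' : ∀ q, q ∈ F ↔ q ∈ below (T w) (N (2 * d + δ)) ∧ ¬ q ^ (a q + 1) ∣ d := by
      intro q
      rw [hF, Finset.mem_filter]
    obtain ⟨c, hc1, hc2⟩ := exists_crt a F d
      (fun q hq => hT q ((mem_below _).1 ((hF' q).1 hq).1).2) (fun q hq => ((hF' q).1 hq).2)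
    exact ⟨c, F, hF', hc1, hc2⟩
  choose c F hF hc hc' using hn
  obtain ⟨m, hm⟩ : ∃ m : ℕ → ℕ, m = fun j => M (T w) a (N (2 * j + δ)) := ⟨_, rfl⟩
  obtain ⟨x, hx⟩ : ∃ x : Ultrafilter ℤ, x = (hyperfilter ℕ).map fun j => (m j : ℤ) := ⟨_, rfl⟩
  obtain ⟨y, hy⟩ : ∃ y : Ultrafilter ℤ,
    y = w.map fun z => ((z.natAbs * c z.natAbs : ℕ) : ℤ) := ⟨_, rfl⟩
  refine ⟨y, neg x, ?_, ?_⟩
  · intro B hB hBw
    rw [ominus, mem_oplus, hy, Ultrafilter.mem_map]
    refine Filter.mem_of_superset (Filter.inter_mem hBw h0) ?_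
    rintro z ⟨hzB, hz0⟩
    change {b | ((z.natAbs * c z.natAbs : ℕ) : ℤ) + b ∈ B} ∈ neg (neg x)
    rw [mem_neg, mem_neg, hx, Ultrafilter.mem_map]
    have hcof : {j : ℕ | z.natAbs ≤ j} ∈ hyperfilter ℕ := by
      apply mem_hyperfilter_of_finite_compl
      refine (Set.finite_Iio z.natAbs).subset ?_
      intro j hj
      have hj' : ¬ z.natAbs ≤ j := hj
      exact not_le.1 hj'
    refine Filter.mem_of_superset hcof ?_
    intro j hj
    have hj' : z.natAbs ≤ j := hj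
    change ((z.natAbs * c z.natAbs : ℕ) : ℤ) + - -(m j : ℤ) ∈ B
    refine hB z hzB _ ?_
    rw [neg_neg]
    have h1 : z ∣ ((z.natAbs * c z.natAbs : ℕ) : ℤ) := by
      rw [Int.dvd_natCast]
      exact Nat.dvd_mul_right _ _
    have h2 : z ∣ (m j : ℤ) := by
      rw [Int.dvd_natCast, hm]
      have h3 : z.natAbs ≤ N (2 * j + δ) := by
        rw [hN]
        have := le_S (T w) a (2 * j + δ)
        omega
      exact (Nat.dvd_factorial (Int.natAbs_pos.2 hz0) h3).mul_right _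
    exact dvd_add h1 h2
  · intro hcon
    have h1 := hcon A hAup hδ
    rw [ominus, mem_oplus, mem_neg, hx, Ultrafilter.mem_map] at h1
    obtain ⟨j, hj⟩ := Ultrafilter.nonempty_of_mem h1
    have h2 : {b | -(m j : ℤ) + b ∈ A} ∈ neg y := hj
    rw [mem_neg, hy, Ultrafilter.mem_map] at h2
    have h3 : {z : ℤ | ∀ q ∈ below (T w) (N (2 * j + δ)), ¬ q ^ (a q + 1) ∣ z.natAbs} ∈ w := by
      have := (Filter.biInter_finset_mem (f := (w : Filter ℤ))
        (s := fun q : ℕ => {z : ℤ | ¬ q ^ (a q + 1) ∣ z.natAbs})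
        (below (T w) (N (2 * j + δ)))).2 (fun q hq => by
          have h4 := (Ultrafilter.compl_mem_iff_notMem (f := w)).2
            (ha q ((mem_below _).1 hq).2).2
          refine Filter.mem_of_superset h4 ?_
          intro z hz hz'
          exact hz (Int.natCast_dvd.2 hz'))
      refine Filter.mem_of_superset this ?_
      intro z hz q hq
      simp only [Set.mem_iInter] at hz
      exact hz q hq
    obtain ⟨z, hz1, hz2, hz3, hz4⟩ := Ultrafilter.nonempty_of_mem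
      (Filter.inter_mem h2 (Filter.inter_mem h3 (Filter.inter_mem h0 (hbig j))))
    have h5 : -(m j : ℤ) + -((z.natAbs * c z.natAbs : ℕ) : ℤ) ∈ A := hz1
    rw [hA] at h5
    obtain ⟨q, hq, hqQ, hqd⟩ := h5
    have h6 : q ^ (a q + 1) ∣ m j + z.natAbs * c z.natAbs := by
      have h7 : ((q ^ (a q + 1) : ℕ) : ℤ) ∣ ((m j + z.natAbs * c z.natAbs : ℕ) : ℤ) := by
        have h8 := (dvd_neg (a := ((q ^ (a q + 1) : ℕ) : ℤ))).2 hqd
        have e : -(-(m j : ℤ) + -((z.natAbs * c z.natAbs : ℕ) : ℤ)) =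
          ((m j + z.natAbs * c z.natAbs : ℕ) : ℤ) := by push_cast; ring
        rw [e] at h8
        exact h8
      exact Int.natCast_dvd_natCast.1 h7
    rw [hm] at h6
    subst hN
    exact key a hT δ j z.natAbs (c z.natAbs) hz4 (F z.natAbs) (Int.natAbs_pos.2 hz3)
      (hF z.natAbs) (hc z.natAbs) (hc' z.natAbs)
      (fun p hp hpj => hz2 p ((mem_below _).2 ⟨hpj, hp⟩)) q hq hqQ h6

/-- **Negative answer to Q1.**  For every ultrafilter `w ≠ 0` on `ℤ`, if the relation `≡_w` is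
symmetric, then it is transitive. -/
theorem result : ∀ w : Ultrafilter ℤ, w ≠ pure 0 →
    (∀ u v : Ultrafilter ℤ, Cong w u v → Cong w v u) →
    ∀ u v t : Ultrafilter ℤ, Cong w u v → Cong w v t → Cong w u t := by
  intro w hw0 hsymm u v t h1 h2
  by_cases hw : {z : ℤ | Z z.natAbs ∈ w} ∈ w
  · exact trans_of_self hw h1 h2
  · obtain ⟨u', v', h3, h4⟩ := not_symm hw0 hw
    exact absurd (hsymm u' v' h3) h4

end Pool.Agent.Results.MP_6ac782_lc.SymmetricTransitive
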